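import Pool.Agent.Lib.MP_144d21_co.X4.Iface
import Pool.Agent.Lib.MP_144d21_co.X2.IfaceS

/-!
# MP_144d21_co, project X4, module BCON: deletion and contraction in 2-connected graphs
-/

set_option autoImplicit false

namespace Pool.Agent.Xu.X4.H05

open Finset Polynomial

theorem del_conn {V : Type} [Fintype V] [DecidableEq V] {G : SimpleGraph V} {S : Finset V}
    {u v : V} (h2 : TwoConn G S) (h3 : 3 ≤ S.card)
    (huv : G.Adj u v) : Conn (del G u v) S := by
  obtain ⟨-, hS, hS1⟩ := h2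
  have hne : u ≠ v := huv.ne
  refine ⟨hS.1, fun A hA hAne hAS => ?_⟩
  by_contra hno
  push Not at hno
  -- an edge out of `A` is `uv` or `vu`
  have hout : ∀ a ∈ A, ∀ b ∈ S, b ∉ A → G.Adj a b → (a = u ∧ b = v) ∨ (a = v ∧ b = u) := by
    intro a ha b hb hbA hab
    by_contra hcon
    push Not at hcon
    exact hno a ha b hb hbA ⟨hab, fun h => hcon.1 h.1 h.2, fun h => hcon.2 h.1 h.2⟩
  -- WLOG description: `p ∈ A`, `q ∉ A`, `{p, q} = {u, v}`
  obtain ⟨p, hp, q, hq, hqA, hpq, hpq'⟩ : ∃ p ∈ A, ∃ q ∈ S, q ∉ A ∧ G.Adj p q ∧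
      ∀ a ∈ A, ∀ b ∈ S, b ∉ A → G.Adj a b → a = p ∧ b = q := by
    obtain ⟨a, ha, b, hb, hbA, hab⟩ := hS.2 A hA hAne hAS
    refine ⟨a, ha, b, hb, hbA, hab, fun a' ha' b' hb' hbA' hab' => ?_⟩
    rcases hout a ha b hb hbA hab with ⟨h1, h2⟩ | ⟨h1, h2⟩ <;>
      rcases hout a' ha' b' hb' hbA' hab' with ⟨h3, h4⟩ | ⟨h3, h4⟩
    · exact ⟨h3.trans h1.symm, h4.trans h2.symm⟩
    · exfalso
      apply hbA
      rw [h2, ← h3]
      exact ha'
    · exfalso
      apply hbA
      rw [h2, ← h3]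
      exact ha'
    · exact ⟨h3.trans h1.symm, h4.trans h2.symm⟩
  have hpS : p ∈ S := hA hp
  by_cases hA1 : (A.erase p).Nonempty
  · -- `A \ {p}` in `S \ {p}`
    have hcon := (hS1 p hpS).2 (A.erase p) (erase_subset_erase p hA) hA1 (by
      intro h
      have h1 : q ∈ S.erase p := mem_erase.2 ⟨fun h2 => hqA (h2 ▸ hp), hq⟩
      rw [← h] at h1
      exact hqA (mem_erase.1 h1).2)
    obtain ⟨a, ha, b, hb, hbA, hab⟩ := hcon
    have hb1 := mem_erase.1 hb
    have hbA' : b ∉ A := fun h => hbA (mem_erase.2 ⟨hb1.1, h⟩)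
    exact (mem_erase.1 ha).1 (hpq' a (mem_erase.1 ha).2 b hb1.2 hbA' hab).1
  · -- `A = {p}`, `(S \ A) \ {q}` in `S \ {q}`
    have hAp : A = {p} := by
      rw [not_nonempty_iff_eq_empty] at hA1
      ext x
      rw [mem_singleton]
      constructor
      · intro hx
        by_contra hxp
        have : x ∈ A.erase p := mem_erase.2 ⟨hxp, hx⟩
        rw [hA1] at this
        exact absurd this (notMem_empty x)
      · rintro rfl
        exact hp
    have hcon := (hS1 q hq).2 {p} (by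
        rw [singleton_subset_iff]
        exact mem_erase.2 ⟨fun h => hqA (h ▸ hp), hpS⟩) (singleton_nonempty p) (by
        intro h
        have h1 : (S.erase q).card = 1 := by rw [← h, card_singleton]
        rw [card_erase_of_mem hq] at h1
        omega)
    obtain ⟨a, ha, b, hb, hbA, hab⟩ := hcon
    have hb1 := mem_erase.1 hb
    rw [← hAp] at ha hbA
    exact hb1.1 (hpq' a ha b hb1.2 hbA hab).2

theorem bcon (hBETDC : BetdcS) (hBNN : X2.BnnS) : BconS := by
  intro V _ _ G S u v h2 h3 hu hv huv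
  have hd := del_conn h2 h3 huv
  refine ⟨h2.2.2 u hu, hd, ?_⟩
  have h4 := hBETDC V G S u v hu hv huv
  have h5 := hBNN V (del G u v) S hd (by omega)
  linarith

end Pool.Agent.Xu.X4.H05
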