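import Pool.Agent.Lib.MP_144d21_co.X4.Iface
import Pool.Agent.Lib.MP_144d21_co.XU.H34.Con2

/-!
# MP_144d21_co, project X4, module CONX: contraction of an edge of a 2-connected graph
-/

set_option autoImplicit false

namespace Pool.Agent.Xu.X4.H05

open Finset

theorem conx : ConxS := by
  intro V _ _ G S u v h2 h3 hu hv huv
  obtain ⟨hc, hS, hS1⟩ := h2
  have hne : u ≠ v := huv.ne
  set T := (S.erase u).erase v with hT
  have hmemT : ∀ a, a ∈ T ↔ a ∈ S ∧ a ≠ u ∧ a ≠ v := by
    intro a
    rw [hT, mem_erase, mem_erase]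
    tauto
  have hvu : v ∈ S.erase u := mem_erase.2 ⟨hne.symm, hv⟩
  have hTne : T.Nonempty := by
    rw [← card_pos, hT, card_erase_of_mem hvu, card_erase_of_mem hu]
    omega
  by_cases hT2 : Conn G T
  · left
    refine ⟨by rw [card_erase_of_mem hu]; omega, Pool.Agent.Xu.H34.con_conn hu hv hne hS,
      fun w hw => ?_⟩
    obtain ⟨hwu, hwS⟩ := mem_erase.1 hw
    by_cases hwv : w = v
    · subst hwv
      exact Pool.Agent.Xu.H34.conn_mono hT2 fun a b hab => ⟨hab.ne, Or.inl hab⟩
    · rw [erase_right_comm]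
      exact Pool.Agent.Xu.H34.con_conn (mem_erase.2 ⟨hwu.symm, hu⟩)
        (mem_erase.2 ⟨Ne.symm hwv, hv⟩) hne (hS1 w hwS)
  · right
    have h5 : ¬ ∀ A ⊆ T, A.Nonempty → A ≠ T → ∃ a ∈ A, ∃ b ∈ T, b ∉ A ∧ G.Adj a b :=
      fun h => hT2 ⟨hTne, h⟩
    push Not at h5
    obtain ⟨A, hAT, hA, hAne, hno⟩ := h5
    have hAS : ∀ a ∈ A, a ∈ S ∧ a ≠ u ∧ a ≠ v := fun a ha => (hmemT a).1 (hAT ha)
    refine ⟨insert u (insert v A), S \ A, ?_, ?_, ?_, ?_, ?_⟩
    · ext a
      simp only [mem_union, mem_insert, mem_sdiff]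
      constructor
      · rintro ((rfl | rfl | h) | h)
        · exact hu
        · exact hv
        · exact (hAS a h).1
        · exact h.1
      · intro h
        by_cases ha : a ∈ A
        · exact Or.inl (Or.inr (Or.inr ha))
        · exact Or.inr ⟨h, ha⟩
    · ext a
      simp only [mem_inter, mem_insert, mem_sdiff, mem_singleton]
      constructor
      · rintro ⟨h | h | h, h'⟩
        · exact Or.inl h
        · exact Or.inr h
        · exact absurd h h'.2
      · rintro (rfl | rfl)
        · exact ⟨Or.inl rfl, hu, fun h => (hAS _ h).2.1 rfl⟩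
        · exact ⟨Or.inr (Or.inl rfl), hv, fun h => (hAS _ h).2.2 rfl⟩
    · intro a ha ha' b hb hb'
      simp only [mem_insert, mem_sdiff, not_and, not_not, not_or] at ha ha' hb hb'
      have haS : a ∈ S := by
        rcases ha with rfl | rfl | h
        · exact hu
        · exact hv
        · exact (hAS a h).1
      exact hno a (ha' haS) b ((hmemT b).2 ⟨hb.1, hb'.1, hb'.2.1⟩) hb.2
    · intro h
      apply hAne
      refine subset_antisymm hAT fun a ha => ?_
      obtain ⟨h1, h2, h3⟩ := (hmemT a).1 ha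
      rw [← h, mem_insert, mem_insert] at h1
      rcases h1 with h1 | h1 | h1
      · exact absurd h1 h2
      · exact absurd h1 h3
      · exact h1
    · intro h
      obtain ⟨a, ha⟩ := hA
      have h1 := (hAS a ha).1
      rw [← h, mem_sdiff] at h1
      exact h1.2 ha

end Pool.Agent.Xu.X4.H05
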